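import Pool.Agent.Helper75.PX.Stmts

set_option autoImplicit false

universe u

open Module

namespace Pool.Agent.Helper75.PX

theorem g1_half {K D : Type u} [Field K] [DivisionRing D] [Algebra K D] (h2 : (2 : K) ≠ 0)
    (x y z : D) (h : (2 : K) • x = y + z) : x = (2 : K)⁻¹ • y + (2 : K)⁻¹ • z := by
  rw [← smul_add, ← h, smul_smul, inv_mul_cancel₀ h2, one_smul]

theorem st_G1 : ST_G1.{u} := by
  intro K D _ _ _ _ hdim h2 α a ha hα
  classical
  by_contra hcon
  have hK : ∀ z : D, z * α = -(α * z) → ∃ k : K, z * z = algebraMap K D k := by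
    intro z hz
    by_cases hz0 : z = 0
    · exact ⟨0, by simp [hz0]⟩
    · by_contra hk
      exact hcon ⟨z, hz0, hz, fun k hk' => hk ⟨k, hk'⟩⟩
  have hα0 : α ≠ 0 := by
    intro h0
    exact hα 0 (by simp [h0])
  have ha0 : a ≠ 0 := by
    intro h0
    rw [h0, map_zero] at ha
    exact hα0 (mul_self_eq_zero.mp ha)
  -- an element that does not commute with `α`
  obtain ⟨y, hy⟩ : ∃ y : D, y * α ≠ α * y := by
    by_contra hno
    push Not at hno
    have hc : α ∈ Subalgebra.center K D := by
      rw [Subalgebra.mem_center_iff]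
      exact hno
    rw [Algebra.IsCentral.center_eq_bot, Algebra.mem_bot] at hc
    obtain ⟨k, hk⟩ := hc
    exact hα k hk.symm
  have hcomm : ∀ (k : K) (x : D), algebraMap K D k * x = k • x := fun k x =>
    (Algebra.smul_def k x).symm
  have hcomm' : ∀ (k : K) (x : D), x * algebraMap K D k = k • x := fun k x => by
    rw [← Algebra.commutes, Algebra.smul_def]
  -- `z1`
  obtain ⟨z, hz0, hz⟩ : ∃ z : D, z ≠ 0 ∧ z * α = -(α * z) := by
    refine ⟨y * α - α * y, sub_ne_zero.mpr hy, ?_⟩
    have e1 : y * α * α = α * (α * y) := by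
      rw [mul_assoc, ha, hcomm', ← mul_assoc, ha, hcomm]
    rw [sub_mul, mul_sub, e1, mul_assoc α y α]
    abel
  obtain ⟨c, hc⟩ := hK z hz
  have hc0 : c ≠ 0 := by
    intro h0
    rw [h0, map_zero] at hc
    exact hz0 (mul_self_eq_zero.mp hc)
  -- polarisation
  have hP : ∀ q : D, q * α = α * q → ∃ k : K, z * q * z = algebraMap K D k - c • q := by
    intro q hq
    have h1 : z * q * α = -(α * (z * q)) := by
      rw [mul_assoc, hq, ← mul_assoc, hz, neg_mul, mul_assoc]
    have h3 : (z + z * q) * α = -(α * (z + z * q)) := by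
      rw [add_mul, h1, hz, mul_add, neg_add]
    obtain ⟨k2, hk2⟩ := hK _ h1
    obtain ⟨k3, hk3⟩ := hK _ h3
    refine ⟨k3 - c - k2, ?_⟩
    have e : (z + z * q) * (z + z * q) = z * z + z * z * q + z * q * z + z * q * (z * q) := by
      noncomm_ring
    rw [hk3, hc, hk2, hcomm] at e
    rw [map_sub, map_sub, e]
    abel
  have hC : ∀ q : D, q * α = α * q → ∃ s t : K, q = s • (1 : D) + t • α := by
    intro q hq
    obtain ⟨k, hk⟩ := hP q hq
    have hq' : α * q * α = α * (α * q) := by rw [mul_assoc, hq]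
    obtain ⟨k', hk'⟩ := hP (α * q) hq'
    have e1 : z * (α * q) * z = -(α * (z * q * z)) := by
      rw [← mul_assoc z α q, hz, neg_mul, neg_mul, mul_assoc, mul_assoc, mul_assoc z q z]
    rw [hk', hk, mul_sub, hcomm', mul_smul_comm] at e1
    -- `k' - c (α q) = - (k α - c (α q))`
    have e2 : (2 * c) • (α * q) = algebraMap K D k' + k • α := by
      have e3 : (2 * c) • (α * q) = c • (α * q) + c • (α * q) := by
        rw [two_mul, add_smul]
      rw [e3]
      have e4 : algebraMap K D k' = c • (α * q) + -(k • α - c • (α * q)) := by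
        rw [← e1]; abel
      rw [e4]
      abel
    have e5 : α * ((2 * c) • (α * q)) = (2 * c * a) • q := by
      rw [mul_smul_comm, ← mul_assoc, ha, hcomm, smul_smul]
    rw [e2, mul_add, hcomm', mul_smul_comm, ha] at e5
    have hne : 2 * c * a ≠ 0 := mul_ne_zero (mul_ne_zero h2 hc0) ha0
    refine ⟨(2 * c * a)⁻¹ * (k * a), (2 * c * a)⁻¹ * k', ?_⟩
    have e6 : q = (2 * c * a)⁻¹ • ((2 * c * a) • q) := by
      rw [smul_smul, inv_mul_cancel₀ hne, one_smul]
    rw [e6, ← e5, Algebra.algebraMap_eq_smul_one, smul_add, smul_smul, smul_smul, smul_smul]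
    rw [add_comm, mul_assoc]
  have hspan : ∀ x : D, x ∈ Submodule.span K (Set.range ![(1 : D), α, z, z * α]) := by
    intro x
    have m0 : (1 : D) ∈ Submodule.span K (Set.range ![(1 : D), α, z, z * α]) :=
      Submodule.subset_span ⟨0, rfl⟩
    have m1 : α ∈ Submodule.span K (Set.range ![(1 : D), α, z, z * α]) :=
      Submodule.subset_span ⟨1, rfl⟩
    have m2 : z ∈ Submodule.span K (Set.range ![(1 : D), α, z, z * α]) :=
      Submodule.subset_span ⟨2, rfl⟩
    have m3 : z * α ∈ Submodule.span K (Set.range ![(1 : D), α, z, z * α]) :=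
      Submodule.subset_span ⟨3, rfl⟩
    -- the part in the centralizer
    have hp : (x + a⁻¹ • (α * x * α)) * α = α * (x + a⁻¹ • (α * x * α)) := by
      have e1 : α * x * α * α = a • (α * x) := by rw [mul_assoc (α * x), ha, hcomm']
      have e2 : α * (α * x * α) = a • (x * α) := by
        rw [← mul_assoc, ← mul_assoc, ha, hcomm, smul_mul_assoc]
      rw [add_mul, mul_add, smul_mul_assoc, mul_smul_comm, e1, e2, smul_smul, smul_smul,
        inv_mul_cancel₀ ha0, one_smul, one_smul, add_comm]
    have hm : (x - a⁻¹ • (α * x * α)) * α = -(α * (x - a⁻¹ • (α * x * α))) := by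
      have e1 : α * x * α * α = a • (α * x) := by rw [mul_assoc (α * x), ha, hcomm']
      have e2 : α * (α * x * α) = a • (x * α) := by
        rw [← mul_assoc, ← mul_assoc, ha, hcomm, smul_mul_assoc]
      rw [sub_mul, mul_sub, smul_mul_assoc, mul_smul_comm, e1, e2, smul_smul, smul_smul,
        inv_mul_cancel₀ ha0, one_smul, one_smul, neg_sub]
    obtain ⟨s, t, hst⟩ := hC _ hp
    have hzm : (z * (x - a⁻¹ • (α * x * α))) * α = α * (z * (x - a⁻¹ • (α * x * α))) := by
      rw [mul_assoc, hm, mul_neg, ← mul_assoc, hz, neg_mul, neg_neg, mul_assoc]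
    obtain ⟨s', t', hst'⟩ := hC _ hzm
    have hm' : x - a⁻¹ • (α * x * α) = c⁻¹ • (s' • z + t' • (z * α)) := by
      have e1 : z * (z * (x - a⁻¹ • (α * x * α))) = c • (x - a⁻¹ • (α * x * α)) := by
        rw [← mul_assoc, hc, hcomm]
      rw [hst', mul_add, mul_smul_comm, mul_smul_comm, mul_one] at e1
      rw [e1, smul_smul, inv_mul_cancel₀ hc0, one_smul]
    have hx : (2 : K) • x = (x + a⁻¹ • (α * x * α)) + (x - a⁻¹ • (α * x * α)) := by
      rw [two_smul]; abel
    have hx' := g1_half h2 x _ _ hx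
    rw [hx', hst, hm']
    exact Submodule.add_mem _ (Submodule.smul_mem _ _ (Submodule.add_mem _
      (Submodule.smul_mem _ _ m0) (Submodule.smul_mem _ _ m1))) (Submodule.smul_mem _ _
      (Submodule.smul_mem _ _ (Submodule.add_mem _ (Submodule.smul_mem _ _ m2)
        (Submodule.smul_mem _ _ m3))))
  have htop : Submodule.span K (Set.range ![(1 : D), α, z, z * α]) = ⊤ := by
    rw [eq_top_iff]
    exact fun x _ => hspan x
  have hcard := finrank_range_le_card (R := K) (b := ![(1 : D), α, z, z * α])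
  rw [Set.finrank, htop, finrank_top, hdim] at hcard
  simp at hcard

end Pool.Agent.Helper75.PX
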